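import Pool.Agent.Helper12.AD.Stmts
import Pool.Agent.Helper12.AD.T1A
import Pool.Agent.Helper12.AD.T1B
import Pool.Agent.Helper12.AD.TRI
import Pool.Agent.Helper5.AD.VTX
import Pool.Agent.Helper72.AD.T10
import Pool.Agent.Helper72.AD.FLD
import Pool.Agent.Helper72.AD.HEL
import Pool.Agent.Helper77.AD.MNK
import Pool.Agent.Helper77.AD.MIX
import Pool.Agent.Helper77.AD.CPX
import Pool.Agent.Helper77.AD.FIN
import Pool.Agent.Helper80.AD.SF
import Pool.Agent.Helper80.AD.SUP
import Pool.Agent.Helper89.AD.WCV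
import Pool.Agent.Helper91.AD.LIM
import Pool.Agent.Helper91.AD.CA1
import Pool.Agent.Helper91.AD.CAU
import Pool.Agent.Helper2.AX.HB
import Pool.Agent.Helper22.AX.TSUP
import Pool.Agent.Helper50.AX.HA
import Pool.Agent.Helper50.AX.MIN
import Pool.Agent.Helper57.AX.HC
import Pool.Agent.Helper57.AX.HULL
import Pool.Agent.Helper97.AX.ARC
import Pool.Agent.Helper97.AX.PER

/-!
# MP_efd95c_co, Alexander's conjecture: chains of one-directional contractions

Alexander's inequality for every pair of configurations in the smallest relation which contains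
the one-directional contractions (the points move parallel to one line, the differences of their
coordinates on that line do not grow) and is closed under composition and under convex
combinations and limits of the second configuration.
-/

open MeasureTheory

namespace Pool.Agent.Results.MP_efd95c_co.DirectionalContractions

theorem result (n : ℕ) (r : ℝ) (p q : Fin n → EuclideanSpace ℝ (Fin 2)) (hpq : AD.Reach p q) :
    μH[1] (frontier (⋂ i, Metric.closedBall (p i) r)) ≤
      μH[1] (frontier (⋂ i, Metric.closedBall (q i) r)) := by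
  have hPER : AX.ST_PER := AX.st_PER AX.st_ARC
  have hTS : AX.ST_TSUP := AX.st_TSUP
  have hHULL : AX.ST_HULL := AX.st_HULL (AX.st_HA hTS) (AX.st_HB hTS) AX.st_HC hTS
  have hWCV : AD.ST_WCV := AD.st_WCV
  have hWCC : AD.ST_WCC := AD.st_WCC hWCV
  have hT1B : AD.ST_T1B := AD.st_T1B hWCC (AD.st_T1A hWCV hWCC)
  have hMNK : AD.ST_MNK := AD.st_MNK (AD.st_HEL (AD.st_TRI (AD.st_FLD (AD.st_T10 hWCV hT1B))))
  have hHCT : AD.ST_HCT := AD.st_HCT
  have hINV : AD.ST_INV := AD.st_INV (AD.st_STP (AD.st_SUP hMNK) hHCT (AD.st_HRF hHCT)) AD.st_MIX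
    (AD.st_LIM hHCT) hHCT
  have hIAR : AD.ST_IAR := AD.st_IAR AD.st_HAR (AD.st_HGP AD.st_VTX) AD.st_VTX
  have hCAU : AD.ST_CAU := AD.st_CAU AX.st_MIN hPER
    (Pool.Agent.Helper91.AD.st_CA1 hHULL hPER hIAR hHCT)
  exact AD.st_FIN (AD.st_CPX hINV hCAU) n r p q hpq

end Pool.Agent.Results.MP_efd95c_co.DirectionalContractions
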