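import Pool.Agent.Helper48.AX.Defs
import Pool.Agent.Helper48.AX.Q
import Pool.Agent.Helper2.AX.HB
import Pool.Agent.Helper2.AX.KAL
import Pool.Agent.Helper22.AX.KIRS
import Pool.Agent.Helper22.AX.MAIN
import Pool.Agent.Helper22.AX.MONO
import Pool.Agent.Helper22.AX.TSUP
import Pool.Agent.Helper42.AX.CPX
import Pool.Agent.Helper50.AX.HA
import Pool.Agent.Helper50.AX.MIN
import Pool.Agent.Helper57.AX.HC
import Pool.Agent.Helper57.AX.HULL
import Pool.Agent.Helper57.AX.TOUR
import Pool.Agent.Helper60.AX.FORM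
import Pool.Agent.Helper7.AX.QS
import Pool.Agent.Helper97.AX.ARC
import Pool.Agent.Helper97.AX.PER

/-!
# MP_efd95c_co, Alexander's conjecture: the perimeter of intersections of congruent disks

Alexander's inequality for all (not necessarily continuous) contractions `q` of `p` for which
some of the disks determine the intersection of the disks about the `q i`, and all of these
disks about the `p i` touch their intersection. For `J = Finset.univ`: all configurations `p`
in `r`-convex position.
-/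

open MeasureTheory

namespace Pool.Agent.Results.MP_efd95c_co.TouchingDisks

theorem result (n : ℕ) (r : ℝ) (hr : 0 < r) (p q : Fin n → EuclideanSpace ℝ (Fin 2))
    (hpq : ∀ i j, dist (q i) (q j) ≤ dist (p i) (p j)) (J : Finset (Fin n))
    (hJ : (⋂ i ∈ J, Metric.closedBall (q i) r) = ⋂ i, Metric.closedBall (q i) r)
    (hT : ∀ i ∈ J, ∃ x, dist x (p i) = r ∧ ∀ j ∈ J, dist x (p j) ≤ r) :
    μH[1] (frontier (⋂ i, Metric.closedBall (p i) r)) ≤
      μH[1] (frontier (⋂ i, Metric.closedBall (q i) r)) := by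
  have hPER : AX.ST_PER := AX.st_PER AX.st_ARC
  have hTS : AX.ST_TSUP := AX.st_TSUP
  have hHULL : AX.ST_HULL := AX.st_HULL (AX.st_HA hTS) (AX.st_HB hTS) AX.st_HC hTS
  have hFORM : AX.ST_FORM := AX.st_FORM hHULL hPER
  have hTOUR : AX.ST_TOUR := AX.st_TOUR hFORM (AX.st_Q AX.st_QS) AX.st_KAL hTS
  exact AX.st_MAIN (AX.st_CPX AX.st_KIRS AX.st_MIN AX.st_MONO hFORM hTOUR) n r p q J hr
    hpq hJ hT

end Pool.Agent.Results.MP_efd95c_co.TouchingDisks
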