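import Pool.Agent.Helper71.E5.ROWS
import Pool.Agent.Helper35.E5.RQ
import Pool.Agent.Helper63.E5.TWO
import Pool.Agent.Helper88.E5.K0
import Pool.Agent.Helper22.E5.KYE
import Pool.Agent.Helper55.E5.KYX
import Pool.Agent.Helper15.E5.FIN5

/-!
# MP_efd95c_co, Alexander's conjecture: the perimeter of intersections of congruent disks

Alexander's inequality for all (not necessarily continuous) contractions of at most five disks;
more generally for all contractions `q` of `p` for which at most five of the disks about the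
`q i` determine the intersection of all of them.
-/

open MeasureTheory

namespace Pool.Agent.Results.MP_efd95c_co.FiveDisks

theorem result (n : ℕ) (r : ℝ) (p q : Fin n → EuclideanSpace ℝ (Fin 2))
    (hpq : ∀ i j, dist (q i) (q j) ≤ dist (p i) (p j)) (J : Finset (Fin n)) (hJc : J.card ≤ 5)
    (hJ : (⋂ i ∈ J, Metric.closedBall (q i) r) = ⋂ i, Metric.closedBall (q i) r) :
    μH[1] (frontier (⋂ i, Metric.closedBall (p i) r)) ≤
      μH[1] (frontier (⋂ i, Metric.closedBall (q i) r)) := by
  have hFIVE : E5.ST_FIVE := E5.FIVE_of (E5.RQ E5.rWQ) E5.TWO E5.st_K0 E5.st_KE0 E5.KYE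
    (E5.st_KYX E5.TOR)
  exact E5.fin5 hFIVE E5.rSCALE AX.st_MONO n r p q hpq J hJc hJ

end Pool.Agent.Results.MP_efd95c_co.FiveDisks
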